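import Mathlib

/-!
# Repeated concatenation followed by the digit 1: infinitely many counterexamples

`N r n` is the integer whose decimal expansion is that of `n` written `r` times in a row, followed by the
digit `1`. There are infinitely many `n`, not powers of ten, such that `N r n` is composite for every `r ≥ 1`;
the smallest of the ones produced here is `750760`.
-/

set_option autoImplicit false

namespace Pool.Agent.Results.MP_842c30_nt.Counterexamples

open Finset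

/-- The integer whose decimal expansion is the one of `n`, which has `d = (Nat.digits 10 n).length` digits,
written `r` times in a row: `C_r(n) = n ∑_{i < r} 10 ^ (d i)`. -/
def C (r n : ℕ) : ℕ := n * ∑ i ∈ range r, 10 ^ ((Nat.digits 10 n).length * i)

/-- The integer obtained by appending the digit `1` to `C_r(n)`. -/
def N (r n : ℕ) : ℕ := 10 * C r n + 1

/-- The algebraic factorisation: here `X = 10 ^ h`, the base is `b = X ^ 2`, and
`10 n = u ^ 2`, `u ^ 2 - v ^ 2 = X ^ 2 - 1`. -/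
lemma not_prime_of {X u v n r : ℕ} (hX : 2 ≤ X) (hr : 1 ≤ r) (huX : X < u) (hvu : v < u)
    (hn : 10 * n = u ^ 2) (huv : u ^ 2 + 1 = v ^ 2 + X ^ 2) :
    ¬ (10 * (n * ∑ i ∈ range r, (X ^ 2) ^ i) + 1).Prime := by
  intro hp
  set p := 10 * (n * ∑ i ∈ range r, (X ^ 2) ^ i) + 1 with hpdef
  -- the product formula, in the integers
  have hgeo : (∑ i ∈ range r, (X ^ 2) ^ i) * (X ^ 2 - 1) = (X ^ 2) ^ r - 1 := by
    rw [Nat.geomSum_eq (by nlinarith : 2 ≤ X ^ 2), Nat.div_mul_cancel]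
    exact Nat.sub_one_dvd_pow_sub_one _ _
  have hXr : X ≤ X ^ r := by
    calc X = X ^ 1 := (pow_one X).symm
      _ ≤ X ^ r := Nat.pow_le_pow_right (by omega) hr
  have hle : v ≤ u * X ^ r := by nlinarith [Nat.one_le_pow r X (by omega)]
  have h1 : 1 ≤ X ^ 2 := Nat.one_le_pow 2 X (by omega)
  have h2 : 1 ≤ (X ^ 2) ^ r := Nat.one_le_pow r _ (by omega)
  have key : (X ^ 2 - 1) * p = (u * X ^ r - v) * (u * X ^ r + v) := by
    zify [h1, hle]
    have hgeo' : ((∑ i ∈ range r, ((X : ℤ) ^ 2) ^ i)) * ((X : ℤ) ^ 2 - 1) = ((X : ℤ) ^ 2) ^ r - 1 := by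
      have := congrArg (fun z : ℕ => (z : ℤ)) hgeo
      push_cast [h1, h2] at this
      exact this
    have hn' : (10 : ℤ) * n = (u : ℤ) ^ 2 := by exact_mod_cast hn
    have huv' : (u : ℤ) ^ 2 + 1 = (v : ℤ) ^ 2 + (X : ℤ) ^ 2 := by exact_mod_cast huv
    have hp' : (p : ℤ) = 10 * (n * ∑ i ∈ range r, ((X : ℤ) ^ 2) ^ i) + 1 := by
      rw [hpdef]; push_cast; ring
    rw [hp']
    have e : ((X : ℤ) ^ r) ^ 2 = ((X : ℤ) ^ 2) ^ r := by ring
    calc ((X : ℤ) ^ 2 - 1) * (10 * (n * ∑ i ∈ range r, ((X : ℤ) ^ 2) ^ i) + 1)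
        = (10 * n) * ((∑ i ∈ range r, ((X : ℤ) ^ 2) ^ i) * ((X : ℤ) ^ 2 - 1)) + ((X : ℤ) ^ 2 - 1) := by
          ring
      _ = (u : ℤ) ^ 2 * (((X : ℤ) ^ 2) ^ r - 1) + ((X : ℤ) ^ 2 - 1) := by rw [hn', hgeo']
      _ = (u : ℤ) ^ 2 * ((X : ℤ) ^ r) ^ 2 - (v : ℤ) ^ 2 := by rw [e]; linarith
      _ = (u * (X : ℤ) ^ r - v) * (u * (X : ℤ) ^ r + v) := by ring
  -- both factors exceed `X ^ 2 - 1`
  have hbig : X ^ 2 - 1 < u * X ^ r - v := by
    have : X ^ 2 + v ≤ u * X ^ r := by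
      have h3 : (X + 1) * X ^ r ≤ u * X ^ r := Nat.mul_le_mul_right _ huX
      have h4 : u * X ≤ u * X ^ r := Nat.mul_le_mul_left _ hXr
      have h5 : X ^ 2 + v ≤ u * X := by
        obtain ⟨w, rfl⟩ : ∃ w, u = X + 1 + w := ⟨u - (X + 1), by omega⟩
        nlinarith
      exact h5.trans h4
    omega
  have hbig2 : X ^ 2 - 1 < u * X ^ r + v := by omega
  have hpos : 0 < X ^ 2 - 1 := by
    have : 4 ≤ X ^ 2 := by nlinarith
    omega
  have hdvd : p ∣ (u * X ^ r - v) * (u * X ^ r + v) := ⟨X ^ 2 - 1, by rw [← key]; ring⟩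
  rcases (Nat.Prime.dvd_mul hp).1 hdvd with h | h
  · obtain ⟨k, hk⟩ := h
    rw [hk] at key
    have h6 : X ^ 2 - 1 = k * (u * X ^ r + v) := by
      have : p * (X ^ 2 - 1) = p * (k * (u * X ^ r + v)) := by rw [mul_comm p, key]; ring
      exact Nat.eq_of_mul_eq_mul_left hp.pos this
    have hk0 : k ≠ 0 := by rintro rfl; omega
    have : u * X ^ r + v ≤ X ^ 2 - 1 := by rw [h6]; exact Nat.le_mul_of_pos_left _ (Nat.pos_of_ne_zero hk0)
    omega
  · obtain ⟨k, hk⟩ := h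
    rw [hk] at key
    have h6 : X ^ 2 - 1 = k * (u * X ^ r - v) := by
      have : p * (X ^ 2 - 1) = p * (k * (u * X ^ r - v)) := by rw [mul_comm p, key]; ring
      exact Nat.eq_of_mul_eq_mul_left hp.pos this
    have hk0 : k ≠ 0 := by rintro rfl; omega
    have : u * X ^ r - v ≤ X ^ 2 - 1 := by rw [h6]; exact Nat.le_mul_of_pos_left _ (Nat.pos_of_ne_zero hk0)
    omega

/-- For every `j` there are `u`, `v`, `n` as needed with `X = 10 ^ (6 j + 3)`, and `10 ∣ n`, `n` is not a power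
of ten. -/
lemma exists_uvn (j : ℕ) : ∃ u v n : ℕ, 10 ^ (6 * j + 3) < u ∧ v < u ∧ 10 * n = u ^ 2 ∧
    u ^ 2 + 1 = v ^ 2 + (10 ^ (6 * j + 3)) ^ 2 ∧ 7 * (10 ^ (6 * j + 3)) ^ 2 < u ^ 2 ∧
    u ^ 2 < 8 * (10 ^ (6 * j + 3)) ^ 2 := by
  obtain ⟨Y, hY⟩ : ∃ Y : ℕ, 10 ^ (6 * j + 3) = 10 * (259 * Y + 100) := by
    induction j with
    | zero => exact ⟨0, by norm_num⟩
    | succ j ih =>
      obtain ⟨Y, hY⟩ := ih
      refine ⟨10 ^ 6 * Y + 386100, ?_⟩
      rw [show 6 * (j + 1) + 3 = (6 * j + 3) + 6 from by ring, pow_add, hY]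
      ring
  rw [hY]
  refine ⟨10 * (709 * Y + 274), 6600 * Y + 2551, 10 * (709 * Y + 274) ^ 2, ?_, ?_, ?_, ?_, ?_, ?_⟩
  · omega
  · omega
  · ring
  · ring
  · nlinarith
  · nlinarith

lemma counterexample (j : ℕ) : ∃ n : ℕ, 10 ^ (6 * j + 3) ≤ n ∧ (∀ m : ℕ, n ≠ 10 ^ m) ∧
    ∀ r : ℕ, 1 ≤ r → ¬ (N r n).Prime := by
  obtain ⟨u, v, n, h1, h2, h3, h4, h5, h6⟩ := exists_uvn j
  set X := 10 ^ (6 * j + 3) with hX
  have hXpos : 10 ≤ X := by
    rw [hX]
    calc 10 = 10 ^ 1 := by norm_num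
      _ ≤ 10 ^ (6 * j + 3) := Nat.pow_le_pow_right (by norm_num) (by omega)
  have hlen : (Nat.digits 10 n).length = 2 * (6 * j + 3) := by
    have hup : n < 10 ^ (2 * (6 * j + 3)) := by
      have : 10 ^ (2 * (6 * j + 3)) = X ^ 2 := by rw [hX, ← pow_mul, mul_comm]
      rw [this]; nlinarith
    have hlo : 10 ^ (2 * (6 * j + 3) - 1) ≤ n := by
      have : 10 * 10 ^ (2 * (6 * j + 3) - 1) = X ^ 2 := by
        rw [hX, ← pow_mul, ← pow_succ']
        congr 1
        omega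
      nlinarith
    apply le_antisymm
    · rwa [Nat.digits_length_le_iff (by norm_num)]
    · have := (Nat.lt_digits_length_iff (b := 10) (by norm_num) n (k := 2 * (6 * j + 3) - 1)).2 hlo
      omega
  refine ⟨n, ?_, ?_, ?_⟩
  · nlinarith
  · intro m hm
    rw [hm] at h3
    have e : 10 ^ (m + 1) = u ^ 2 := by rw [← h3, pow_succ']
    have hX2 : X ^ 2 = 10 ^ (12 * j + 6) := by rw [hX, ← pow_mul]; congr 1; ring
    rw [hX2, ← e] at h5 h6
    have a1 : 12 * j + 6 < m + 1 := by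
      apply (Nat.pow_lt_pow_iff_right (by norm_num : 1 < 10)).1
      calc 10 ^ (12 * j + 6) ≤ 7 * 10 ^ (12 * j + 6) := by omega
        _ < _ := h5
    have a2 : m + 1 < 12 * j + 7 := by
      apply (Nat.pow_lt_pow_iff_right (by norm_num : 1 < 10)).1
      calc 10 ^ (m + 1) < 8 * 10 ^ (12 * j + 6) := h6
        _ ≤ 10 ^ (12 * j + 7) := by rw [pow_succ 10 (12 * j + 6)]; omega
    omega
  · intro r hr
    have := not_prime_of (X := X) (u := u) (v := v) (n := n) (r := r) (by omega) hr h1 h2 h3 h4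
    unfold N C
    rw [hlen]
    have e : ∀ i, 10 ^ (2 * (6 * j + 3) * i) = (X ^ 2) ^ i := by
      intro i
      rw [hX, ← pow_mul, ← pow_mul]
      congr 1
      ring
    simpa only [e] using this

/-- There are infinitely many positive integers `n` that are not powers of ten and for which the integer `N r n`,
whose decimal expansion is that of `n` written `r` times in a row followed by the digit `1`, is not a prime (and so
is composite) for any `r ≥ 1`. -/
theorem result : {n : ℕ | 0 < n ∧ (∀ m : ℕ, n ≠ 10 ^ m) ∧ ∀ r : ℕ, 1 ≤ r → ¬ (N r n).Prime}.Infinite := by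
  rw [Set.infinite_iff_exists_gt]
  intro B
  obtain ⟨n, h1, h2, h3⟩ := counterexample B
  have hB : B < 10 ^ (6 * B + 3) := by
    calc B < 10 ^ B := Nat.lt_pow_self (by norm_num)
      _ ≤ 10 ^ (6 * B + 3) := Nat.pow_le_pow_right (by norm_num) (by omega)
  exact ⟨n, ⟨by omega, h2, h3⟩, by omega⟩

end Pool.Agent.Results.MP_842c30_nt.Counterexamples
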